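import Mathlib

open MeasureTheory Set Filter Topology
open scoped InnerProductSpace ENNReal NNReal

namespace Pool.Agent.Lib.MP_7f2f72_gt

/-- Three-point slope bound: for a convex function on the line, if `0 ≤ x < y ≤ δ` then the increment
of `f` between `x` and `y` is between `(y-x) * q` (with `q` the right derivative at `0`) and
`(y - x)` times the slope between `δ` and `2 δ`. -/
lemma convex_incr_bounds {f : ℝ → ℝ} (hf : ConvexOn ℝ univ f) {q : ℝ}
    (hq : HasDerivWithinAt f q (Ioi 0) 0) {x y δ : ℝ} (hx : 0 ≤ x) (hxy : x < y) (hyδ : y ≤ δ) :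
    (y - x) * q ≤ f y - f x ∧ f y - f x ≤ (y - x) * ((f (2 * δ) - f δ) / δ) := by
  have hy0 : 0 < y := lt_of_le_of_lt hx hxy
  have hδ : 0 < δ := lt_of_lt_of_le hy0 hyδ
  have hyx : 0 < y - x := sub_pos.mpr hxy
  have h1 : q ≤ (f y - f 0) / (y - 0) := by
    have := hf.le_slope_of_hasDerivWithinAt_Ioi (mem_univ 0) (mem_univ y) hy0 hq
    rwa [slope_def_field] at this
  have h2 : (f y - f 0) / (y - 0) ≤ (f y - f x) / (y - x) := by
    rcases hx.eq_or_lt with rfl | hx'
    · exact le_rfl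
    · exact hf.secant_mono_aux3 (mem_univ 0) (mem_univ y) hx' hxy
  have h3 : (f y - f x) / (y - x) ≤ (f (2 * δ) - f x) / (2 * δ - x) := by
    refine hf.secant_mono_aux2 (mem_univ x) (mem_univ _) hxy (by linarith)
  have h4 : (f (2 * δ) - f x) / (2 * δ - x) ≤ (f (2 * δ) - f δ) / (2 * δ - δ) := by
    exact hf.secant_mono_aux3 (mem_univ x) (mem_univ _) (lt_of_lt_of_le hxy hyδ) (by linarith)
  have e1 : (2 * δ - δ) = δ := by ring
  rw [e1] at h4
  constructor
  · have : q ≤ (f y - f x) / (y - x) := h1.trans h2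
    rw [le_div_iff₀ hyx] at this
    linarith
  · have : (f y - f x) / (y - x) ≤ (f (2 * δ) - f δ) / δ := h3.trans h4
    rw [div_le_iff₀ hyx] at this
    linarith

lemma tendsto_slope_two {f : ℝ → ℝ} {q : ℝ}
    (hq : HasDerivWithinAt f q (Ioi 0) 0) :
    Tendsto (fun δ : ℝ => (f (2 * δ) - f δ) / δ) (𝓝[>] 0) (𝓝 q) := by
  have h1 : Tendsto (fun t : ℝ => (f t - f 0) / t) (𝓝[>] 0) (𝓝 q) := by
    have := (hasDerivWithinAt_iff_tendsto_slope' self_notMem_Ioi).mp hq
    refine this.congr' ?_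
    filter_upwards with t
    rw [slope_def_field, sub_zero]
  have h2 : Tendsto (fun t : ℝ => 2 * t) (𝓝[>] 0) (𝓝[>] 0) := by
    refine tendsto_nhdsWithin_iff.mpr ⟨?_, ?_⟩
    · have : Tendsto (fun t : ℝ => 2 * t) (𝓝 0) (𝓝 (2 * 0)) := (continuous_const_mul 2).tendsto 0
      rw [mul_zero] at this
      exact this.mono_left nhdsWithin_le_nhds
    · filter_upwards [self_mem_nhdsWithin] with t ht
      have : (0:ℝ) < t := ht
      exact mul_pos two_pos this
  have h3 := h1.comp h2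
  have h4 : Tendsto (fun t : ℝ => 2 * ((f (2 * t) - f 0) / (2 * t)) - (f t - f 0) / t) (𝓝[>] 0)
      (𝓝 (2 * q - q)) := (h3.const_mul 2).sub h1
  have e : 2 * q - q = q := by ring
  rw [e] at h4
  refine h4.congr' ?_
  filter_upwards [self_mem_nhdsWithin] with t ht
  have : (0:ℝ) < t := ht
  field_simp
  ring

/-- A convex function is strictly differentiable from the right. -/
lemma convex_hasDerivAtFilter_right {f : ℝ → ℝ} (hf : ConvexOn ℝ univ f) {q : ℝ}
    (hq : HasDerivWithinAt f q (Ioi 0) 0) :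
    HasDerivAtFilter f q (𝓝[≥] (0:ℝ) ×ˢ 𝓝[≥] (0:ℝ)) := by
  rw [hasDerivAtFilter_iff_isLittleO, Asymptotics.isLittleO_iff]
  intro ε hε
  have h1 : ∀ᶠ δ in 𝓝[>] (0:ℝ), (f (2 * δ) - f δ) / δ < q + ε :=
    (tendsto_slope_two hq).eventually (gt_mem_nhds (by linarith))
  obtain ⟨δ, hδ, hδ0⟩ := (h1.and self_mem_nhdsWithin).exists
  have hδ0' : (0:ℝ) < δ := hδ0
  have hmem : Icc (0:ℝ) δ ∈ 𝓝[≥] (0:ℝ) := Icc_mem_nhdsGE hδ0'
  filter_upwards [prod_mem_prod hmem hmem] with p hp
  obtain ⟨x, y⟩ := p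
  obtain ⟨hx, hy⟩ := hp
  simp only at hx hy ⊢
  have key : ∀ a b : ℝ, 0 ≤ a → a < b → b ≤ δ →
      ‖f b - f a - (b - a) • q‖ ≤ ε * ‖b - a‖ := by
    intro a b ha hab hb
    obtain ⟨k1, k2⟩ := convex_incr_bounds hf hq ha hab hb
    have hba : 0 < b - a := sub_pos.mpr hab
    rw [smul_eq_mul, Real.norm_eq_abs, Real.norm_eq_abs, abs_of_pos hba, abs_le]
    constructor
    · nlinarith
    · nlinarith
  rcases lt_trichotomy x y with h | h | h
  · have := key x y hx.1 h hy.2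
    have e1 : f x - f y - (x - y) • q = -(f y - f x - (y - x) • q) := by
      simp only [smul_eq_mul]; ring
    have e2 : x - y = -(y - x) := by ring
    rw [e1, norm_neg, e2, norm_neg]
    exact this
  · subst h
    simp
  · exact key y x hy.1 h hx.2

end Pool.Agent.Lib.MP_7f2f72_gt
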