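import Mathlib
import Pool.Agent.Lib.MP_7f2f72_gt.Conv

open MeasureTheory Set Filter Topology
open scoped InnerProductSpace ENNReal NNReal

namespace Pool.Agent.Lib.MP_7f2f72_gt

variable {E : Type*} [NormedAddCommGroup E] [InnerProductSpace ℝ E]

/-- The radial curve `τ ↦ (u + τ w) / ψ τ`. -/
noncomputable def rcurve (ψ : ℝ → ℝ) (u w : E) (τ : ℝ) : E := (ψ τ)⁻¹ • (u + τ • w)

lemma rcurve_hasDerivAtFilter {ψ : ℝ → ℝ} (hψ : ConvexOn ℝ univ ψ) {q : ℝ}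
    (hq : HasDerivWithinAt ψ q (Ioi 0) 0) (h0 : ψ 0 ≠ 0) (u w : E) :
    HasDerivAtFilter (rcurve ψ u w) ((ψ 0)⁻¹ • w - (q * ((ψ 0) ^ 2)⁻¹) • u)
      (𝓝[≥] (0:ℝ) ×ˢ 𝓝[≥] (0:ℝ)) := by
  have hs := convex_hasDerivAtFilter_right hψ hq
  have hF : HasStrictFDerivAt (fun p : ℝ × ℝ => p.2⁻¹ • (u + p.1 • w))
      (((ψ 0)⁻¹ • ((ContinuousLinearMap.fst ℝ ℝ ℝ).smulRight w)) +
        ((-((ψ 0) ^ 2)⁻¹) • (ContinuousLinearMap.snd ℝ ℝ ℝ)).smulRight (u + (0:ℝ) • w))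
      ((0:ℝ), ψ 0) := by
    have h2 : HasStrictFDerivAt (fun p : ℝ × ℝ => p.2⁻¹)
        ((-((ψ 0) ^ 2)⁻¹) • (ContinuousLinearMap.snd ℝ ℝ ℝ)) ((0:ℝ), ψ 0) := by
      have ha := (hasStrictDerivAt_inv h0)
      exact ha.comp_hasStrictFDerivAt ((0:ℝ), ψ 0)
        (hasStrictFDerivAt_snd (𝕜 := ℝ) (E := ℝ) (F := ℝ) (p := ((0:ℝ), ψ 0)))
    have h1 : HasStrictFDerivAt (fun p : ℝ × ℝ => u + p.1 • w)
        ((ContinuousLinearMap.fst ℝ ℝ ℝ).smulRight w) ((0:ℝ), ψ 0) := by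
      exact ((hasStrictFDerivAt_fst (𝕜 := ℝ) (E := ℝ) (F := ℝ) (p := ((0:ℝ), ψ 0))).smul_const w).const_add u
    exact h2.smul h1
  have hG : HasFDerivAtFilter (fun τ : ℝ => (τ, ψ τ))
      ((ContinuousLinearMap.id ℝ ℝ).prod (ContinuousLinearMap.toSpanSingleton ℝ q))
      (𝓝[≥] (0:ℝ) ×ˢ 𝓝[≥] (0:ℝ)) :=
    (hasFDerivAtFilter_id _).prodMk hs.hasFDerivAtFilter
  have hc : Tendsto ψ (𝓝[≥] (0:ℝ)) (𝓝 (ψ 0)) :=
    (continuousWithinAt_Ioi_iff_Ici.mp hq.continuousWithinAt).tendsto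
  have hT : Tendsto (fun τ : ℝ => (τ, ψ τ)) (𝓝[≥] (0:ℝ)) (𝓝 ((0:ℝ), ψ 0)) := by
    rw [nhds_prod_eq]
    exact (tendsto_id.mono_left nhdsWithin_le_nhds).prodMk hc
  have hT2 : Tendsto (Prod.map (fun τ : ℝ => (τ, ψ τ)) (fun τ : ℝ => (τ, ψ τ)))
      (𝓝[≥] (0:ℝ) ×ˢ 𝓝[≥] (0:ℝ)) (𝓝 (((0:ℝ), ψ 0), ((0:ℝ), ψ 0))) := by
    rw [nhds_prod_eq]
    exact hT.prodMap hT
  have := (HasFDerivAtFilter.comp hF hG hT2).hasDerivAtFilter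
  have e : ((((ψ 0)⁻¹ • ((ContinuousLinearMap.fst ℝ ℝ ℝ).smulRight w)) +
        ((-((ψ 0) ^ 2)⁻¹) • (ContinuousLinearMap.snd ℝ ℝ ℝ)).smulRight (u + (0:ℝ) • w)) ∘L
        ((ContinuousLinearMap.id ℝ ℝ).prod (ContinuousLinearMap.toSpanSingleton ℝ q))) 1
      = (ψ 0)⁻¹ • w - (q * ((ψ 0) ^ 2)⁻¹) • u := by
    simp [sub_eq_add_neg, mul_comm]
  rw [e] at this
  exact this

/-- local Lipschitz bound from a strict right derivative -/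
lemma eventually_lipschitzOn {c : ℝ → E} {v : E}
    (h : HasDerivAtFilter c v (𝓝[≥] (0:ℝ) ×ˢ 𝓝[≥] (0:ℝ))) {C : ℝ≥0} (hC : ‖v‖ < C) :
    ∃ δ > 0, ∀ t, 0 < t → t < δ → LipschitzOnWith C c (Icc 0 t) := by
  rw [hasDerivAtFilter_iff_isLittleO, Asymptotics.isLittleO_iff] at h
  have hpos : 0 < (C:ℝ) - ‖v‖ := sub_pos.mpr hC
  have h1 := h hpos
  rw [(nhdsGE_basis (0:ℝ)).prod_self.eventually_iff] at h1
  obtain ⟨δ, hδ, hh⟩ := h1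
  refine ⟨δ, hδ, fun t _ htδ => ?_⟩
  rw [lipschitzOnWith_iff_norm_sub_le]
  intro x hx y hy
  have hk := hh (show (x, y) ∈ Ico 0 δ ×ˢ Ico 0 δ from
    ⟨⟨hx.1, lt_of_le_of_lt hx.2 htδ⟩, ⟨hy.1, lt_of_le_of_lt hy.2 htδ⟩⟩)
  simp only at hk
  have e : c x - c y = (c x - c y - (x - y) • v) + (x - y) • v := by abel
  calc ‖c x - c y‖ = ‖(c x - c y - (x - y) • v) + (x - y) • v‖ := by rw [← e]
    _ ≤ ‖c x - c y - (x - y) • v‖ + ‖(x - y) • v‖ := norm_add_le _ _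
    _ ≤ ((C:ℝ) - ‖v‖) * ‖x - y‖ + ‖x - y‖ * ‖v‖ := by
        gcongr
        exact (norm_smul_le _ _)
    _ = C * ‖x - y‖ := by ring

/-- the chord has asymptotic speed `‖v‖` -/
lemma tendsto_chord {c : ℝ → E} {v : E}
    (h : HasDerivAtFilter c v (𝓝[≥] (0:ℝ) ×ˢ 𝓝[≥] (0:ℝ))) :
    Tendsto (fun t : ℝ => ‖c t - c 0‖ / t) (𝓝[>] 0) (𝓝 ‖v‖) := by
  have h1 : HasDerivWithinAt c v (Ioi 0) 0 := by
    refine HasDerivAtFilter.mono h ?_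
    refine Filter.prod_mono (nhdsWithin_mono _ Ioi_subset_Ici_self) ?_
    exact pure_le_nhdsWithin (by simp)
  have h2 := (hasDerivWithinAt_iff_tendsto_slope' self_notMem_Ioi).mp h1
  refine (h2.norm).congr' ?_
  filter_upwards [self_mem_nhdsWithin] with t ht
  have ht0 : (0:ℝ) < t := ht
  rw [slope_def_module, sub_zero, norm_smul, norm_inv, Real.norm_eq_abs, abs_of_pos ht0]
  field_simp

end Pool.Agent.Lib.MP_7f2f72_gt
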