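import Mathlib
import Pool.Agent.Lib.MP_7f2f72_gt.Curve

open MeasureTheory Set Filter Topology
open scoped InnerProductSpace ENNReal NNReal

set_option linter.unusedSectionVars false

namespace Pool.Agent.Lib.MP_7f2f72_gt

variable {E : Type*} [NormedAddCommGroup E] [InnerProductSpace ℝ E] [MeasurableSpace E]
  [BorelSpace E]

lemma chord_le_measure {c : ℝ → E} {t : ℝ} (ht : 0 ≤ t) (hc : ContinuousOn c (Icc 0 t)) :
    ENNReal.ofReal ‖c t - c 0‖ ≤ μH[1] (c '' Icc 0 t) := by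
  set D : E → ℝ := fun x => dist x (c 0) with hD
  have hLip : LipschitzWith 1 D := LipschitzWith.dist_left (c 0)
  have h1 : μH[1] (D '' (c '' Icc 0 t)) ≤ μH[1] (c '' Icc 0 t) := by
    have := hLip.hausdorffMeasure_image_le (d := 1) zero_le_one (c '' Icc 0 t)
    simpa using this
  have hcont : ContinuousOn (fun s => D (c s)) (Icc 0 t) := hLip.continuous.comp_continuousOn hc
  have h2 : Icc (D (c 0)) (D (c t)) ⊆ (fun s => D (c s)) '' Icc 0 t :=
    intermediate_value_Icc ht hcont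
  have h3 : (fun s => D (c s)) '' Icc 0 t = D '' (c '' Icc 0 t) := by
    rw [image_image]
  have h4 : D (c 0) = 0 := by simp [hD]
  have h5 : D (c t) = ‖c t - c 0‖ := by simp [hD, dist_eq_norm]
  rw [h3, h4, h5] at h2
  calc ENNReal.ofReal ‖c t - c 0‖ = volume (Icc (0:ℝ) ‖c t - c 0‖) := by
        rw [Real.volume_Icc, sub_zero]
    _ = μH[1] (Icc (0:ℝ) ‖c t - c 0‖) := by rw [hausdorffMeasure_real]
    _ ≤ μH[1] (D '' (c '' Icc 0 t)) := measure_mono h2
    _ ≤ μH[1] (c '' Icc 0 t) := h1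

lemma measure_le_lip {c : ℝ → E} {a b : ℝ} {C : ℝ≥0} (hc : LipschitzOnWith C c (Icc a b)) :
    μH[1] (c '' Icc a b) ≤ C * ENNReal.ofReal (b - a) := by
  have := hc.hausdorffMeasure_image_le (d := 1) zero_le_one
  rw [ENNReal.rpow_one, hausdorffMeasure_real, Real.volume_Icc] at this
  exact this

/-- Abstract properties of the gauge of a plane convex body. -/
structure GaugeLike (g : E → ℝ) : Prop where
  conv : ConvexOn ℝ univ g
  smul : ∀ a : ℝ, 0 ≤ a → ∀ x, g (a • x) = a * g x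
  lower : ∃ m > 0, ∀ x, m * ‖x‖ ≤ g x
  lip : ∃ C : ℝ≥0, LipschitzWith C g

lemma GaugeLike.pos {g : E → ℝ} (hg : GaugeLike g) {x : E} (hx : x ≠ 0) : 0 < g x := by
  obtain ⟨m, hm, h⟩ := hg.lower
  exact lt_of_lt_of_le (mul_pos hm (norm_pos_iff.mpr hx)) (h x)

/-- `u, w` is an orthonormal frame spanning the plane. -/
structure Frame (u w : E) : Prop where
  nu : ‖u‖ = 1
  nw : ‖w‖ = 1
  ortho : ⟪u, w⟫_ℝ = 0
  span : ∀ x : E, x = ⟪u, x⟫_ℝ • u + ⟪w, x⟫_ℝ • w

lemma Frame.neg_right {u w : E} (h : Frame u w) : Frame u (-w) where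
  nu := h.nu
  nw := by rw [norm_neg]; exact h.nw
  ortho := by rw [inner_neg_right, h.ortho, neg_zero]
  span := fun x => by
    rw [inner_neg_left, neg_smul_neg]
    exact h.span x

lemma Frame.uu {u w : E} (h : Frame u w) : ⟪u, u⟫_ℝ = 1 := by
  rw [real_inner_self_eq_norm_sq, h.nu]; norm_num

lemma Frame.ww {u w : E} (h : Frame u w) : ⟪w, w⟫_ℝ = 1 := by
  rw [real_inner_self_eq_norm_sq, h.nw]; norm_num

lemma Frame.wu {u w : E} (h : Frame u w) : ⟪w, u⟫_ℝ = 0 := by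
  rw [real_inner_comm]; exact h.ortho

lemma Frame.norm_sq {u w : E} (h : Frame u w) (a b : ℝ) : ‖a • w - b • u‖ ^ 2 = a ^ 2 + b ^ 2 := by
  rw [← real_inner_self_eq_norm_sq]
  simp only [inner_sub_left, inner_sub_right, inner_smul_left, inner_smul_right, h.uu, h.ww,
    h.wu, h.ortho]
  simp
  ring

lemma Frame.add_smul_ne_zero {u w : E} (h : Frame u w) (t : ℝ) : u + t • w ≠ 0 := by
  intro h0
  have : ⟪u, u + t • w⟫_ℝ = 1 := by
    rw [inner_add_right, inner_smul_right, h.uu, h.ortho]; simp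
  rw [h0, inner_zero_right] at this
  exact zero_ne_one this

/-- The intersection of the curve with a line through the origin is null. -/
lemma null_line {g : E → ℝ} (hg : GaugeLike g) {u w : E} (hF : Frame u w) {n : E} (hn : n ≠ 0) :
    μH[1] ({x | g x = 1} ∩ {x : E | ⟪n, x⟫_ℝ = 0}) = 0 := by
  set a := ⟪u, n⟫_ℝ with ha
  set b := ⟪w, n⟫_ℝ with hb
  set e : E := (-b) • u + a • w with he
  have hsub : ({x | g x = 1} ∩ {x : E | ⟪n, x⟫_ℝ = 0}) ⊆
      {(g e)⁻¹ • e, (g (-e))⁻¹ • (-e)} := by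
    rintro x ⟨hx1, hx2⟩
    simp only [mem_ofPred_eq] at hx1 hx2
    have hx := hF.span x
    set α := ⟪u, x⟫_ℝ with hα
    set β := ⟪w, x⟫_ℝ with hβ
    have hnx : a * α + b * β = 0 := by
      have hn' := hF.span n
      rw [← ha, ← hb] at hn'
      rw [hn', inner_add_left, inner_smul_left, inner_smul_left] at hx2
      simpa using hx2
    have hab : a ^ 2 + b ^ 2 ≠ 0 := by
      intro h0
      have ha0 : a = 0 := by nlinarith [sq_nonneg a, sq_nonneg b]
      have hb0 : b = 0 := by nlinarith [sq_nonneg a, sq_nonneg b]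
      apply hn
      rw [hF.span n, ← ha, ← hb, ha0, hb0]
      simp
    -- x = k • e
    set k := (a * β - b * α) / (a ^ 2 + b ^ 2) with hk
    have hxk : x = k • e := by
      rw [hx, he, smul_add, smul_smul, smul_smul]
      congr 2
      · rw [hk]; field_simp; linear_combination a * hnx
      · rw [hk]; field_simp; linear_combination b * hnx
    rcases lt_trichotomy k 0 with hk0 | hk0 | hk0
    · right
      have h1 : x = (-k) • (-e) := by rw [smul_neg, neg_smul, neg_neg]; exact hxk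
      rw [h1, hg.smul _ (by linarith)] at hx1
      have h2 : (g (-e))⁻¹ = -k := by
        exact inv_eq_of_mul_eq_one_left hx1
      rw [mem_singleton_iff, h2]; exact h1
    · exfalso
      rw [hxk, hk0, zero_smul] at hx1
      have := hg.smul 0 le_rfl (0:E)
      rw [zero_smul, zero_mul] at this
      rw [this] at hx1
      exact zero_ne_one hx1
    · left
      rw [hxk, hg.smul _ hk0.le] at hx1
      have h2 : (g e)⁻¹ = k := by
        exact inv_eq_of_mul_eq_one_left hx1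
      rw [h2]; exact hxk
  have hfin : ({(g e)⁻¹ • e, (g (-e))⁻¹ • (-e)} : Set E).Finite := by
    exact (finite_singleton _).insert _
  have : NullSingletonClass (μH[1] : Measure E) := Measure.nullSingletonClass_hausdorff E one_pos
  exact measure_mono_null hsub (hfin.measure_zero _)

/-- Halving along all lines gives equal measure in opposite sectors. -/
lemma sector_eq {g : E → ℝ} (hg : GaugeLike g) {u w : E} (hF : Frame u w)
    (hfin : μH[1] {x | g x = 1} ≠ ⊤)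
    (hbis : ∀ n : E, n ≠ 0 → μH[1] ({x | g x = 1} ∩ {x | 0 < ⟪n, x⟫_ℝ}) =
      μH[1] ({x | g x = 1} ∩ {x | ⟪n, x⟫_ℝ < 0}))
    {m n : E} (hm : m ≠ 0) (hn : n ≠ 0) :
    μH[1] ({x | g x = 1} ∩ {x | 0 < ⟪m, x⟫_ℝ} ∩ {x | ⟪n, x⟫_ℝ < 0}) =
      μH[1] ({x | g x = 1} ∩ {x | ⟪m, x⟫_ℝ < 0} ∩ {x | 0 < ⟪n, x⟫_ℝ}) := by
  set μ : Measure E := μH[1] with hμ
  set S : Set E := {x | g x = 1} with hS
  have hmeasP : ∀ n : E, MeasurableSet {x : E | 0 < ⟪n, x⟫_ℝ} := fun n =>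
    (isOpen_lt continuous_const (continuous_const.inner continuous_id)).measurableSet
  have hmeasN : ∀ n : E, MeasurableSet {x : E | ⟪n, x⟫_ℝ < 0} := fun n =>
    (isOpen_lt (continuous_const.inner continuous_id) continuous_const).measurableSet
  -- splitting along a line
  have split : ∀ (A : Set E), A ⊆ S → ∀ n : E, n ≠ 0 →
      μ A = μ (A ∩ {x | 0 < ⟪n, x⟫_ℝ}) + μ (A ∩ {x | ⟪n, x⟫_ℝ < 0}) := by
    intro A hA n hn
    rw [← measure_inter_add_sdiff A (hmeasP n)]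
    congr 1
    apply le_antisymm
    · have : A \ {x | 0 < ⟪n, x⟫_ℝ} ⊆ (A ∩ {x | ⟪n, x⟫_ℝ < 0}) ∪ (S ∩ {x | ⟪n, x⟫_ℝ = 0}) := by
        rintro x ⟨hxA, hx⟩
        simp only [mem_ofPred_eq, not_lt] at hx
        rcases hx.lt_or_eq with h | h
        · exact Or.inl ⟨hxA, h⟩
        · exact Or.inr ⟨hA hxA, h⟩
      calc μ (A \ {x | 0 < ⟪n, x⟫_ℝ}) ≤ μ ((A ∩ {x | ⟪n, x⟫_ℝ < 0}) ∪ (S ∩ {x | ⟪n, x⟫_ℝ = 0})) :=
            measure_mono this
        _ ≤ μ (A ∩ {x | ⟪n, x⟫_ℝ < 0}) + μ (S ∩ {x | ⟪n, x⟫_ℝ = 0}) := measure_union_le _ _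
        _ = μ (A ∩ {x | ⟪n, x⟫_ℝ < 0}) := by
            rw [null_line hg hF hn, add_zero]
    · refine measure_mono ?_
      rintro x ⟨hxA, hx⟩
      refine ⟨hxA, ?_⟩
      simp only [mem_ofPred_eq, not_lt] at hx ⊢
      exact hx.le
  have hSm := split S subset_rfl m hm
  have hSn := split S subset_rfl n hn
  rw [← hbis m hm] at hSm
  rw [← hbis n hn] at hSn
  -- so both positive halves have the same measure
  have hhalf : μ (S ∩ {x | 0 < ⟪m, x⟫_ℝ}) = μ (S ∩ {x | 0 < ⟪n, x⟫_ℝ}) := by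
    have h2 : (2:ℝ≥0∞) * μ (S ∩ {x | 0 < ⟪m, x⟫_ℝ}) = 2 * μ (S ∩ {x | 0 < ⟪n, x⟫_ℝ}) := by
      rw [two_mul, two_mul, ← hSm, ← hSn]
    exact (ENNReal.mul_right_inj two_ne_zero ENNReal.ofNat_ne_top).mp h2
  have h1 := split (S ∩ {x | 0 < ⟪m, x⟫_ℝ}) inter_subset_left n hn
  have h2 := split (S ∩ {x | 0 < ⟪n, x⟫_ℝ}) inter_subset_left m hm
  have e1 : S ∩ {x | 0 < ⟪n, x⟫_ℝ} ∩ {x | 0 < ⟪m, x⟫_ℝ} =
      S ∩ {x | 0 < ⟪m, x⟫_ℝ} ∩ {x | 0 < ⟪n, x⟫_ℝ} := by
    rw [inter_right_comm]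
  have e2 : S ∩ {x | 0 < ⟪n, x⟫_ℝ} ∩ {x | ⟪m, x⟫_ℝ < 0} =
      S ∩ {x | ⟪m, x⟫_ℝ < 0} ∩ {x | 0 < ⟪n, x⟫_ℝ} := by
    rw [inter_right_comm]
  rw [e1, e2] at h2
  have hne : μ (S ∩ {x | 0 < ⟪m, x⟫_ℝ} ∩ {x | 0 < ⟪n, x⟫_ℝ}) ≠ ⊤ :=
    ne_top_of_le_ne_top hfin (measure_mono (inter_subset_left.trans inter_subset_left))
  have h3 := h1.symm.trans (hhalf.trans h2)
  exact (ENNReal.add_right_inj hne).mp h3

/-- The level set of a gauge-like function has finite length. -/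
lemma finite_length {g : E → ℝ} (hg : GaugeLike g) {u w : E} (hF : Frame u w) :
    μH[1] {x | g x = 1} ≠ ⊤ := by
  obtain ⟨m, hm, hlow⟩ := hg.lower
  obtain ⟨C, hC⟩ := hg.lip
  set e : ℝ → E := fun θ => Real.cos θ • u + Real.sin θ • w with he
  have hen : ∀ θ, ‖e θ‖ = 1 := by
    intro θ
    have h1 : ‖e θ‖ ^ 2 = 1 := by
      have := hF.norm_sq (Real.sin θ) (-Real.cos θ)
      rw [neg_smul, sub_neg_eq_add, add_comm] at this
      rw [he]
      simp only
      rw [this]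
      have := Real.sin_sq_add_cos_sq θ
      linarith
    nlinarith [norm_nonneg (e θ)]
  have hed : ∀ a b, ‖e a - e b‖ ≤ 2 * ‖a - b‖ := by
    intro a b
    have h1 : e a - e b = (Real.cos a - Real.cos b) • u + (Real.sin a - Real.sin b) • w := by
      simp only [he, sub_smul]; abel
    have hc : ‖Real.cos a - Real.cos b‖ ≤ ‖a - b‖ := by
      have := Real.lipschitzWith_cos.norm_sub_le a b
      simpa using this
    have hs : ‖Real.sin a - Real.sin b‖ ≤ ‖a - b‖ := by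
      have := Real.lipschitzWith_sin.norm_sub_le a b
      simpa using this
    rw [h1]
    calc ‖(Real.cos a - Real.cos b) • u + (Real.sin a - Real.sin b) • w‖
        ≤ ‖(Real.cos a - Real.cos b) • u‖ + ‖(Real.sin a - Real.sin b) • w‖ := norm_add_le _ _
      _ = ‖Real.cos a - Real.cos b‖ + ‖Real.sin a - Real.sin b‖ := by
          rw [norm_smul, norm_smul, hF.nu, hF.nw, mul_one, mul_one]
      _ ≤ ‖a - b‖ + ‖a - b‖ := add_le_add hc hs
      _ = 2 * ‖a - b‖ := by ring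
  have hge : ∀ θ, m ≤ g (e θ) := by
    intro θ
    have := hlow (e θ)
    rwa [hen θ, mul_one] at this
  set c : ℝ → E := fun θ => (g (e θ))⁻¹ • e θ with hc
  have hcl : ∀ a b, ‖c a - c b‖ ≤ (2 * (m⁻¹ + C * (m⁻¹ * m⁻¹))) * ‖a - b‖ := by
    intro a b
    have ga : 0 < g (e a) := lt_of_lt_of_le hm (hge a)
    have gb : 0 < g (e b) := lt_of_lt_of_le hm (hge b)
    have h1 : c a - c b = (g (e a))⁻¹ • (e a - e b) + ((g (e a))⁻¹ - (g (e b))⁻¹) • e b := by
      simp only [hc, smul_sub, sub_smul]; abel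
    have h2 : (g (e a))⁻¹ ≤ m⁻¹ := inv_anti₀ hm (hge a)
    have h2b : (g (e b))⁻¹ ≤ m⁻¹ := inv_anti₀ hm (hge b)
    have h3 : |g (e b) - g (e a)| ≤ C * ‖e a - e b‖ := by
      have := hC.norm_sub_le (e b) (e a)
      rwa [norm_sub_rev (e b) (e a)] at this
    have h4 : |(g (e a))⁻¹ - (g (e b))⁻¹| ≤ (C * ‖e a - e b‖) * (m⁻¹ * m⁻¹) := by
      rw [inv_sub_inv ga.ne' gb.ne', abs_div, abs_of_pos (mul_pos ga gb), div_eq_mul_inv, mul_inv]
      have : (g (e a))⁻¹ * (g (e b))⁻¹ ≤ m⁻¹ * m⁻¹ :=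
        mul_le_mul h2 h2b (inv_nonneg.mpr gb.le) (inv_nonneg.mpr hm.le)
      exact mul_le_mul h3 this (by positivity) (by positivity)
    rw [h1]
    calc ‖(g (e a))⁻¹ • (e a - e b) + ((g (e a))⁻¹ - (g (e b))⁻¹) • e b‖
        ≤ ‖(g (e a))⁻¹ • (e a - e b)‖ + ‖((g (e a))⁻¹ - (g (e b))⁻¹) • e b‖ := norm_add_le _ _
      _ = (g (e a))⁻¹ * ‖e a - e b‖ + |(g (e a))⁻¹ - (g (e b))⁻¹| := by
          rw [norm_smul, norm_smul, hen b, mul_one, norm_inv, Real.norm_eq_abs,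
            abs_of_pos ga, Real.norm_eq_abs]
      _ ≤ m⁻¹ * ‖e a - e b‖ + (C * ‖e a - e b‖) * (m⁻¹ * m⁻¹) := by
          gcongr
      _ = (m⁻¹ + C * (m⁻¹ * m⁻¹)) * ‖e a - e b‖ := by ring
      _ ≤ (m⁻¹ + C * (m⁻¹ * m⁻¹)) * (2 * ‖a - b‖) := by
          gcongr
          exact hed a b
      _ = _ := by ring
  set L : ℝ≥0 := Real.toNNReal (2 * (m⁻¹ + C * (m⁻¹ * m⁻¹))) with hL
  have hLL : LipschitzOnWith L c (Icc (-Real.pi) Real.pi) := by
    rw [lipschitzOnWith_iff_norm_sub_le]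
    intro a _ b _
    rw [hL, Real.coe_toNNReal _ (by positivity)]
    exact hcl a b
  have hsub : {x | g x = 1} ⊆ c '' Icc (-Real.pi) Real.pi := by
    intro x hx
    have hgx : g x = 1 := hx
    have hx0 : x ≠ 0 := by
      intro h0
      have := hg.smul 0 le_rfl (0:E)
      rw [zero_smul, zero_mul] at this
      rw [h0, this] at hgx
      exact zero_ne_one hgx
    set z : ℂ := ⟨⟪u, x⟫_ℝ, ⟪w, x⟫_ℝ⟩ with hz
    have hz0 : z ≠ 0 := by
      intro h0
      apply hx0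
      have h1 : ⟪u, x⟫_ℝ = 0 := by have := congrArg Complex.re h0; simpa [hz] using this
      have h2 : ⟪w, x⟫_ℝ = 0 := by have := congrArg Complex.im h0; simpa [hz] using this
      rw [hF.span x, h1, h2]; simp
    have hzn : 0 < ‖z‖ := norm_pos_iff.mpr hz0
    refine ⟨z.arg, ⟨(Complex.neg_pi_lt_arg z).le, Complex.arg_le_pi z⟩, ?_⟩
    have hex : e z.arg = ‖z‖⁻¹ • x := by
      simp only [he]
      rw [Complex.cos_arg hz0, Complex.sin_arg]
      conv_rhs => rw [hF.span x]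
      rw [smul_add, smul_smul, smul_smul]
      congr 2
      · simp only [hz]; field_simp
      · simp only [hz]; field_simp
    simp only [hc]
    rw [hex, hg.smul _ (inv_nonneg.mpr hzn.le), hgx, mul_one, inv_inv, smul_smul,
      mul_inv_cancel₀ hzn.ne', one_smul]
  have := measure_le_lip hLL
  refine ne_top_of_le_ne_top ?_ (measure_mono hsub |>.trans this)
  exact ENNReal.mul_ne_top ENNReal.coe_ne_top ENNReal.ofReal_ne_top

end Pool.Agent.Lib.MP_7f2f72_gt
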