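import Mathlib
import Pool.Agent.Lib.MP_7f2f72_gt.Sector

open MeasureTheory Set Filter Topology
open scoped InnerProductSpace ENNReal NNReal

set_option linter.unusedSectionVars false

namespace Pool.Agent.Lib.MP_7f2f72_gt

variable {E : Type*} [NormedAddCommGroup E] [InnerProductSpace ℝ E] [MeasurableSpace E]
  [BorelSpace E]

lemma GaugeLike.continuous {g : E → ℝ} (hg : GaugeLike g) : Continuous g := by
  obtain ⟨C, hC⟩ := hg.lip
  exact hC.continuous

lemma GaugeLike.conv_line {g : E → ℝ} (hg : GaugeLike g) (u w : E) :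
    ConvexOn ℝ univ (fun τ : ℝ => g (u + τ • w)) := by
  have := hg.conv.comp_affineMap (AffineMap.lineMap u (u + w) : ℝ →ᵃ[ℝ] E)
  rw [preimage_univ] at this
  have e : (fun τ : ℝ => g (u + τ • w)) = g ∘ (AffineMap.lineMap u (u + w) : ℝ →ᵃ[ℝ] E) := by
    funext τ
    simp [AffineMap.lineMap_apply, add_comm]
  rw [e]
  exact this

/-- The curve point at parameter `τ` lies on the level set. -/
lemma rcurve_mem {g : E → ℝ} (hg : GaugeLike g) {u w : E} (hF : Frame u w) (τ : ℝ) :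
    g (rcurve (fun τ : ℝ => g (u + τ • w)) u w τ) = 1 := by
  have hpos : 0 < g (u + τ • w) := hg.pos (hF.add_smul_ne_zero τ)
  unfold rcurve
  rw [hg.smul _ (inv_nonneg.mpr hpos.le), inv_mul_cancel₀ hpos.ne']

lemma Frame.neg_both {u w : E} (h : Frame u w) : Frame (-u) (-w) where
  nu := by rw [norm_neg]; exact h.nu
  nw := by rw [norm_neg]; exact h.nw
  ortho := by rw [inner_neg_right, inner_neg_left, h.ortho]; simp
  span := fun x => by
    rw [inner_neg_left, inner_neg_left, neg_smul_neg, neg_smul_neg]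
    exact h.span x

/-- Comparison of the speeds at opposite points. -/
lemma speed_le {g : E → ℝ} (hg : GaugeLike g) {u w : E} (hF : Frame u w)
    (hbis : ∀ n : E, n ≠ 0 → μH[1] ({x | g x = 1} ∩ {x | 0 < ⟪n, x⟫_ℝ}) =
      μH[1] ({x | g x = 1} ∩ {x | ⟪n, x⟫_ℝ < 0}))
    {p q : ℝ} (hp : HasDerivWithinAt (fun τ : ℝ => g (u + τ • w)) p (Ioi 0) 0)
    (hq : HasDerivWithinAt (fun τ : ℝ => g (-u + τ • (-w))) q (Ioi 0) 0) :
    ‖(g u)⁻¹ • w - (p * ((g u) ^ 2)⁻¹) • u‖ ≤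
      ‖(g (-u))⁻¹ • (-w) - (q * ((g (-u)) ^ 2)⁻¹) • (-u)‖ := by
  set φ : ℝ → ℝ := fun τ => g (u + τ • w) with hφ
  set ψ : ℝ → ℝ := fun τ => g (-u + τ • (-w)) with hψ
  have hφ0 : φ 0 = g u := by simp [hφ]
  have hψ0 : ψ 0 = g (-u) := by simp [hψ]
  have hu : u ≠ 0 := by
    intro h; have := hF.nu; rw [h, norm_zero] at this; exact zero_ne_one this
  have hgu : 0 < g u := hg.pos hu
  have hgu' : 0 < g (-u) := hg.pos (neg_ne_zero.mpr hu)
  have hA := rcurve_hasDerivAtFilter (hg.conv_line u w) hp (by simpa using hgu.ne') u w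
  have hB := rcurve_hasDerivAtFilter (hg.conv_line (-u) (-w)) hq (by simpa using hgu'.ne') (-u) (-w)
  simp only [zero_smul, add_zero] at hA hB
  by_contra hcon
  rw [not_le] at hcon
  obtain ⟨C, hC1, hC2⟩ := exists_between hcon
  have hC0 : 0 ≤ C := (norm_nonneg _).trans hC1.le
  lift C to ℝ≥0 using hC0
  obtain ⟨δ, hδ, hLip⟩ := eventually_lipschitzOn (C := C) hB hC1
  have hchord := (tendsto_chord hA).eventually (lt_mem_nhds hC2)
  have hev : ∀ᶠ t in 𝓝[>] (0:ℝ), t < δ := by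
    filter_upwards [Ioo_mem_nhdsGT hδ] with t ht using ht.2
  obtain ⟨t, ⟨ht1, ht2⟩, ht3⟩ := ((hchord.and hev).and self_mem_nhdsWithin).exists
  have ht0 : (0:ℝ) < t := ht3
  -- names
  set c := rcurve (fun τ : ℝ => g (u + τ • w)) u w with hc
  set d := rcurve (fun τ : ℝ => g (-u + τ • (-w))) (-u) (-w) with hd
  set S : Set E := {x | g x = 1} with hS
  have hcS : ∀ τ, c τ ∈ S := fun τ => rcurve_mem hg hF τ
  have hw0 : w ≠ 0 := by
    intro h; have := hF.nw; rw [h, norm_zero] at this; exact zero_ne_one this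
  set n : E := w - t • u with hn
  have hn0 : n ≠ 0 := by
    intro h0
    have : ⟪w, n⟫_ℝ = 1 := by
      rw [hn, inner_sub_right, inner_smul_right, hF.ww, hF.wu]; simp
    rw [h0, inner_zero_right] at this
    exact zero_ne_one this
  have hsec := sector_eq hg hF (finite_length hg hF) hbis hw0 hn0
  -- upper bound for the opposite sector
  have hup : (S ∩ {x | ⟪w, x⟫_ℝ < 0} ∩ {x | 0 < ⟪n, x⟫_ℝ}) ⊆ d '' Icc 0 t := by
    rintro x ⟨⟨hxS, hx1⟩, hx2⟩
    simp only [mem_ofPred_eq] at hx1 hx2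
    have hgx : g x = 1 := hxS
    set α := ⟪u, x⟫_ℝ with hα
    set β := ⟪w, x⟫_ℝ with hβ
    have hx2' : 0 < β - t * α := by
      rw [hn, inner_sub_left, inner_smul_left] at hx2
      simpa using hx2
    have hα0 : α < 0 := by nlinarith
    have hτ : β / α * α = β := div_mul_cancel₀ β hα0.ne
    refine ⟨β / α, ⟨?_, ?_⟩, ?_⟩
    · exact (div_pos_of_neg_of_neg hx1 hα0).le
    · rw [div_le_iff_of_neg hα0]; linarith
    · have hx : x = (-α) • (-u + (β / α) • (-w)) := by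
        conv_lhs => rw [hF.span x]
        rw [smul_add, smul_smul, smul_neg, smul_neg, neg_smul, neg_neg, ← hα, ← hβ]
        congr 1
        rw [← neg_smul]
        congr 1
        linarith
      have hgx' := hgx
      rw [hx, hg.smul _ (by linarith)] at hgx'
      have h2 : (g (-u + (β / α) • (-w)))⁻¹ = -α := inv_eq_of_mul_eq_one_left hgx'
      rw [hd]
      unfold rcurve
      rw [h2]
      exact hx.symm
  -- lower bound for the sector
  have hlow : c '' Icc 0 t ⊆ (S ∩ {x | 0 < ⟪w, x⟫_ℝ} ∩ {x | ⟪n, x⟫_ℝ < 0}) ∪ {c 0, c t} := by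
    rintro _ ⟨τ, ⟨h0, h1⟩, rfl⟩
    rcases h0.eq_or_lt with rfl | h0
    · right; left; rfl
    rcases h1.eq_or_lt with rfl | h1
    · right; right; rfl
    left
    have hpos : 0 < g (u + τ • w) := hg.pos (hF.add_smul_ne_zero τ)
    refine ⟨⟨hcS τ, ?_⟩, ?_⟩
    · simp only [mem_ofPred_eq, hc]
      unfold rcurve
      rw [inner_smul_right, inner_add_right, inner_smul_right, hF.ww, hF.wu]
      have := inv_pos.mpr hpos
      positivity
    · simp only [mem_ofPred_eq, hc]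
      unfold rcurve
      rw [inner_smul_right, hn, inner_add_right, inner_sub_left, inner_smul_left, inner_smul_right,
        inner_sub_left, inner_smul_left, hF.ww, hF.wu, hF.ortho, hF.uu]
      have := inv_pos.mpr hpos
      simp only [conj_trivial]
      nlinarith
  have hcc : ContinuousOn c (Icc 0 t) := by
    have hcont : Continuous c := by
      rw [hc]
      unfold rcurve
      have hlin : Continuous (fun τ : ℝ => u + τ • w) := by fun_prop
      exact ((hg.continuous.comp hlin).inv₀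
        (fun τ => (hg.pos (hF.add_smul_ne_zero τ)).ne')).smul hlin
    exact hcont.continuousOn
  have hM1 := chord_le_measure ht0.le hcc
  have hM2 : μH[1] (c '' Icc 0 t) ≤ μH[1] (S ∩ {x | 0 < ⟪w, x⟫_ℝ} ∩ {x | ⟪n, x⟫_ℝ < 0}) := by
    have : NullSingletonClass (μH[1] : Measure E) := Measure.nullSingletonClass_hausdorff E one_pos
    have hfin : ({c 0, c t} : Set E).Finite := (finite_singleton _).insert _
    calc μH[1] (c '' Icc 0 t) ≤ μH[1] ((S ∩ {x | 0 < ⟪w, x⟫_ℝ} ∩ {x | ⟪n, x⟫_ℝ < 0}) ∪ {c 0, c t}) :=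
          measure_mono hlow
      _ ≤ μH[1] (S ∩ {x | 0 < ⟪w, x⟫_ℝ} ∩ {x | ⟪n, x⟫_ℝ < 0}) + μH[1] ({c 0, c t} : Set E) :=
          measure_union_le _ _
      _ = _ := by rw [hfin.measure_zero, add_zero]
  have hM3 : μH[1] (S ∩ {x | ⟪w, x⟫_ℝ < 0} ∩ {x | 0 < ⟪n, x⟫_ℝ}) ≤
      (C : ℝ≥0∞) * ENNReal.ofReal (t - 0) :=
    (measure_mono hup).trans (measure_le_lip (hLip t ht0 ht2))
  have hM4 : ENNReal.ofReal ‖c t - c 0‖ ≤ (C : ℝ≥0∞) * ENNReal.ofReal (t - 0) :=
    hM1.trans (hM2.trans (hsec.le.trans hM3))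
  have hM5 : (C : ℝ≥0∞) * ENNReal.ofReal (t - 0) = ENNReal.ofReal (C * t) := by
    rw [sub_zero, ENNReal.ofReal_mul C.coe_nonneg, ENNReal.ofReal_coe_nnreal]
  rw [hM5, ENNReal.ofReal_le_ofReal_iff (by positivity)] at hM4
  rw [lt_div_iff₀ ht0] at ht1
  linarith

/-- At a direction maximising `1/g x - 1/g (-x)`, the opposite gauge decreases on each side. -/
lemma neg_slope {g : E → ℝ} (hg : GaugeLike g) {u w : E} (hF : Frame u w)
    (hbis : ∀ n : E, n ≠ 0 → μH[1] ({x | g x = 1} ∩ {x | 0 < ⟪n, x⟫_ℝ}) =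
      μH[1] ({x | g x = 1} ∩ {x | ⟪n, x⟫_ℝ < 0}))
    (hpos : 0 < (g u)⁻¹ - (g (-u))⁻¹)
    (hmax : ∀ x : E, x ≠ 0 → ‖x‖ * ((g x)⁻¹ - (g (-x))⁻¹) ≤ (g u)⁻¹ - (g (-u))⁻¹) :
    ∀ᶠ t in 𝓝[>] (0:ℝ), g (-u - t • w) < g (-u) := by
  set φ : ℝ → ℝ := fun τ => g (u + τ • w) with hφ
  set ψ : ℝ → ℝ := fun τ => g (-u + τ • (-w)) with hψ
  have hφ0 : φ 0 = g u := by simp [hφ]
  have hψ0 : ψ 0 = g (-u) := by simp [hψ]
  have hu : u ≠ 0 := by
    intro h; have := hF.nu; rw [h, norm_zero] at this; exact zero_ne_one this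
  have hgu : 0 < g u := hg.pos hu
  have hgu' : 0 < g (-u) := hg.pos (neg_ne_zero.mpr hu)
  have hcφ := hg.conv_line u w
  have hcψ := hg.conv_line (-u) (-w)
  have hp := hcφ.hasDerivWithinAt_rightDeriv_of_mem_interior (x := 0) (by simp)
  have hq := hcψ.hasDerivWithinAt_rightDeriv_of_mem_interior (x := 0) (by simp)
  set p := derivWithin (fun τ : ℝ => g (u + τ • w)) (Ioi 0) 0 with hpdef
  set q := derivWithin (fun τ : ℝ => g (-u + τ • (-w))) (Ioi 0) 0 with hqdef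
  have hsp := speed_le hg hF hbis hp hq
  have hsq := pow_le_pow_left₀ (norm_nonneg _) hsp 2
  rw [hF.norm_sq, hF.neg_both.norm_sq] at hsq
  set a := p * ((g u) ^ 2)⁻¹ with ha
  set b := q * ((g (-u)) ^ 2)⁻¹ with hb
  -- derivative at the maximum
  have hba : b ≤ a := by
    have h1 : HasDerivWithinAt (fun τ => (φ τ)⁻¹ - (ψ τ)⁻¹)
        (-p / (φ 0) ^ 2 - (-q / (ψ 0) ^ 2)) (Ioi 0) 0 :=
      (hp.fun_inv (by rw [← hφ0] at hgu; exact hgu.ne')).sub
        (hq.fun_inv (by rw [← hψ0] at hgu'; exact hgu'.ne'))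
    have h2 := (hasDerivWithinAt_iff_tendsto_slope' self_notMem_Ioi).mp h1
    have h3 : -p / (φ 0) ^ 2 - (-q / (ψ 0) ^ 2) ≤ 0 := by
      refine le_of_tendsto h2 ?_
      filter_upwards [self_mem_nhdsWithin] with t ht
      have ht0 : (0:ℝ) < t := ht
      rw [slope_def_field, sub_zero]
      apply div_nonpos_of_nonpos_of_nonneg _ ht0.le
      rw [hφ0, hψ0]
      have hne := hF.add_smul_ne_zero t
      have hm := hmax (u + t • w) hne
      have hneg : -(u + t • w) = -u + t • (-w) := by rw [neg_add, smul_neg]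
      rw [hneg] at hm
      have hnorm : 1 ≤ ‖u + t • w‖ := by
        have h5 := hF.norm_sq t (-1)
        rw [neg_smul, one_smul, sub_neg_eq_add, add_comm] at h5
        nlinarith [norm_nonneg (u + t • w), sq_nonneg t]
      have h6 : (φ t)⁻¹ - (ψ t)⁻¹ ≤ (g u)⁻¹ - (g (-u))⁻¹ := by
        rcases le_or_gt ((φ t)⁻¹ - (ψ t)⁻¹) 0 with h | h
        · linarith
        · refine le_trans ?_ hm
          exact le_mul_of_one_le_left h.le hnorm
      linarith
    rw [hφ0, hψ0] at h3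
    rw [ha, hb, ← div_eq_mul_inv, ← div_eq_mul_inv]
    have e1 : -p / (g u) ^ 2 - (-q / (g (-u)) ^ 2) = q / (g (-u)) ^ 2 - p / (g u) ^ 2 := by ring
    linarith
  have hb0 : b < 0 := by
    by_contra hcon
    rw [not_lt] at hcon
    have i1 : 0 < (g (-u))⁻¹ := inv_pos.mpr hgu'
    have i2 : (g (-u))⁻¹ < (g u)⁻¹ := by linarith
    have i3 : (g (-u))⁻¹ ^ 2 < (g u)⁻¹ ^ 2 := pow_lt_pow_left₀ i2 i1.le two_ne_zero
    have i4 : b ^ 2 ≤ a ^ 2 := pow_le_pow_left₀ hcon hba 2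
    linarith
  have hq0 : q < 0 := by
    have : 0 < ((g (-u)) ^ 2)⁻¹ := by positivity
    by_contra hcon
    rw [not_lt] at hcon
    have : 0 ≤ b := by rw [hb]; positivity
    linarith
  have h2 := (hasDerivWithinAt_iff_tendsto_slope' self_notMem_Ioi).mp hq
  have h3 := h2.eventually (gt_mem_nhds hq0)
  filter_upwards [h3, self_mem_nhdsWithin] with t ht1 ht2
  have ht0 : (0:ℝ) < t := ht2
  rw [slope_def_field, sub_zero, div_neg_iff] at ht1
  have e1 : -u - t • w = -u + t • (-w) := by rw [smul_neg, sub_eq_add_neg]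
  rw [e1]
  simp only [zero_smul, add_zero] at ht1
  rcases ht1 with h | h
  · linarith [h.2]
  · linarith [h.1]

/-- The level set of a gauge-like function bisected by all lines through the origin is symmetric. -/
theorem symm_of_bisect {g : E → ℝ} (hg : GaugeLike g)
    (hframe : ∀ u : E, ‖u‖ = 1 → ∃ w : E, Frame u w) [ProperSpace E]
    (hbis : ∀ n : E, n ≠ 0 → μH[1] ({x | g x = 1} ∩ {x | 0 < ⟪n, x⟫_ℝ}) =
      μH[1] ({x | g x = 1} ∩ {x | ⟪n, x⟫_ℝ < 0})) (x : E) : g (-x) = g x := by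
  by_contra hne
  have hx0 : x ≠ 0 := by
    rintro rfl
    exact hne (by rw [neg_zero])
  -- a unit vector with positive difference
  obtain ⟨y, hy1, hy2⟩ : ∃ y : E, ‖y‖ = 1 ∧ 0 < (g y)⁻¹ - (g (-y))⁻¹ := by
    have hxn : 0 < ‖x‖ := norm_pos_iff.mpr hx0
    have hin : 0 ≤ ‖x‖⁻¹ := (inv_pos.mpr hxn).le
    have key : ∀ z : E, ‖z‖ = ‖x‖ → g z < g (-z) → z ≠ 0 →
        ∃ y : E, ‖y‖ = 1 ∧ 0 < (g y)⁻¹ - (g (-y))⁻¹ := by
      intro z hz hlt hz0
      refine ⟨‖x‖⁻¹ • z, ?_, ?_⟩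
      · rw [norm_smul, hz, norm_inv, norm_norm, inv_mul_cancel₀ hxn.ne']
      · rw [← smul_neg, hg.smul _ hin, hg.smul _ hin, sub_pos]
        have h1 : 0 < ‖x‖⁻¹ * g z := mul_pos (inv_pos.mpr hxn) (hg.pos hz0)
        exact inv_strictAnti₀ h1 (by gcongr)
    rcases lt_or_gt_of_ne hne with h | h
    · refine key (-x) (norm_neg x) (by rwa [neg_neg]) (neg_ne_zero.mpr hx0)
    · exact key x rfl h hx0
  -- maximise over the sphere
  have hcomp : IsCompact (Metric.sphere (0:E) 1) := isCompact_sphere 0 1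
  have hcont : ContinuousOn (fun z : E => (g z)⁻¹ - (g (-z))⁻¹) (Metric.sphere (0:E) 1) := by
    have hne : ∀ z ∈ Metric.sphere (0:E) 1, z ≠ 0 := by
      intro z hz h0
      rw [h0] at hz
      simp at hz
    refine ContinuousOn.sub ?_ ?_
    · exact hg.continuous.continuousOn.inv₀ (fun z hz => (hg.pos (hne z hz)).ne')
    · exact (hg.continuous.comp continuous_neg).continuousOn.inv₀
        (fun z hz => (hg.pos (neg_ne_zero.mpr (hne z hz))).ne')
  obtain ⟨u, huS, humax⟩ := hcomp.exists_isMaxOn ⟨y, by simpa using hy1⟩ hcont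
  have hu1 : ‖u‖ = 1 := by simpa using huS
  have hpos : 0 < (g u)⁻¹ - (g (-u))⁻¹ := lt_of_lt_of_le hy2 (humax (by simpa using hy1))
  have hmax : ∀ x : E, x ≠ 0 → ‖x‖ * ((g x)⁻¹ - (g (-x))⁻¹) ≤ (g u)⁻¹ - (g (-u))⁻¹ := by
    intro z hz
    have hzn : 0 < ‖z‖ := norm_pos_iff.mpr hz
    have h1 : ‖z‖⁻¹ • z ∈ Metric.sphere (0:E) 1 := by
      rw [mem_sphere_zero_iff_norm, norm_smul, norm_inv, norm_norm, inv_mul_cancel₀ hzn.ne']
    have h2 := humax h1
    simp only [mem_ofPred_eq] at h2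
    rw [← smul_neg, hg.smul _ (inv_pos.mpr hzn).le, hg.smul _ (inv_pos.mpr hzn).le,
      mul_inv, mul_inv, inv_inv, ← mul_sub] at h2
    exact h2
  obtain ⟨w, hF⟩ := hframe u hu1
  have e1 := neg_slope hg hF hbis hpos hmax
  have e2 := neg_slope hg hF.neg_right hbis hpos hmax
  obtain ⟨t, ht1, ht2⟩ := (e1.and e2).exists
  have hconv := hg.conv.2 (mem_univ (-u - t • w)) (mem_univ (-u - t • (-w)))
    (show (0:ℝ) ≤ 1/2 by norm_num) (show (0:ℝ) ≤ 1/2 by norm_num) (by norm_num)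
  have e3 : (1/2:ℝ) • (-u - t • w) + (1/2:ℝ) • (-u - t • (-w)) = -u := by
    rw [smul_neg, sub_neg_eq_add, ← smul_add]
    have : -u - t • w + (-u + t • w) = (2:ℝ) • (-u) := by rw [two_smul]; abel
    rw [this, smul_smul]; norm_num
  rw [e3] at hconv
  simp only [smul_eq_mul] at hconv
  linarith

end Pool.Agent.Lib.MP_7f2f72_gt
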