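import Mathlib
import Pool.Agent.Lib.MP_7f2f72_gt.Main

open MeasureTheory Set Filter Topology
open scoped InnerProductSpace ENNReal NNReal Pointwise

set_option linter.unusedSectionVars false

namespace Pool.Agent.Lib.MP_7f2f72_gt

variable {E : Type*} [NormedAddCommGroup E] [InnerProductSpace ℝ E] [MeasurableSpace E]
  [BorelSpace E]

/-- The gauge of a compact convex set with the origin in its interior. -/
lemma gaugeLike_gauge {K : Set E} (hK : Convex ℝ K) (hKc : IsCompact K) (h0 : 0 ∈ interior K) :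
    GaugeLike (gauge K) where
  conv := by
    have habs : Absorbent ℝ K := absorbent_nhds_zero (mem_interior_iff_mem_nhds.mp h0)
    refine ⟨convex_univ, fun x _ y _ a b ha hb _ => ?_⟩
    calc gauge K (a • x + b • y) ≤ gauge K (a • x) + gauge K (b • y) := gauge_add_le hK habs _ _
      _ = a • gauge K x + b • gauge K y := by
          rw [gauge_smul_of_nonneg ha, gauge_smul_of_nonneg hb]
  smul := fun a ha x => by
    rw [gauge_smul_of_nonneg ha, smul_eq_mul]
  lower := by
    have habs : Absorbent ℝ K := absorbent_nhds_zero (mem_interior_iff_mem_nhds.mp h0)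
    obtain ⟨r, hr⟩ := hKc.isBounded.subset_closedBall (0:E)
    have hr' : K ⊆ Metric.closedBall 0 (max r 1) :=
      hr.trans (Metric.closedBall_subset_closedBall (le_max_left _ _))
    have hpos : 0 < max r 1 := lt_of_lt_of_le one_pos (le_max_right _ _)
    refine ⟨(max r 1)⁻¹, inv_pos.mpr hpos, fun x => ?_⟩
    have := le_gauge_of_subset_closedBall (x := x) habs hpos.le hr'
    rwa [div_eq_inv_mul] at this
  lip := hK.lipschitz_gauge (mem_interior_iff_mem_nhds.mp h0)

/-- A point all of whose lines bisect the length of the boundary is an interior point. -/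
lemma zero_mem_interior [ProperSpace E] [CompleteSpace E] {K : Set E} (hK : Convex ℝ K)
    (hKc : IsCompact K) (hKi : (interior K).Nonempty)
    (hframe : ∀ u : E, ‖u‖ = 1 → ∃ w : E, Frame u w)
    (hbis : ∀ n : E, n ≠ 0 → μH[1] (frontier K ∩ {x | 0 < ⟪n, x⟫_ℝ}) =
      μH[1] (frontier K ∩ {x | ⟪n, x⟫_ℝ < 0})) : (0:E) ∈ interior K := by
  by_contra h0
  obtain ⟨f, hf⟩ := geometric_hahn_banach_open_point hK.interior isOpen_interior h0
  rw [map_zero] at hf
  set n : E := (InnerProductSpace.toDual ℝ E).symm f with hn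
  have hfn : ∀ x, ⟪n, x⟫_ℝ = f x := fun x => InnerProductSpace.toDual_symm_apply
  obtain ⟨p, hp⟩ := hKi
  have hfp := hf p hp
  have hn0 : n ≠ 0 := by
    intro h
    have := hfn p
    rw [h, inner_zero_left] at this
    linarith
  have hKle : ∀ x ∈ K, f x ≤ 0 := by
    intro x hx
    have h1 : x ∈ closure (interior K) := by
      rw [hK.closure_interior_eq_closure_of_nonempty_interior ⟨p, hp⟩]
      exact subset_closure hx
    have h2 : closure (interior K) ⊆ {x | f x ≤ 0} :=
      closure_minimal (fun y hy => (hf y hy).le) (isClosed_le f.continuous continuous_const)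
    exact h2 h1
  have hfr : frontier K ⊆ K := hKc.isClosed.frontier_subset
  have hempty : frontier K ∩ {x | 0 < ⟪n, x⟫_ℝ} = ∅ := by
    ext x
    simp only [mem_inter_iff, mem_ofPred_eq, mem_empty_iff_false, iff_false, not_and, not_lt]
    intro hx
    rw [hfn]
    exact hKle x (hfr hx)
  have hz : μH[1] (frontier K ∩ {x | ⟪n, x⟫_ℝ < 0}) = 0 := by
    rw [← hbis n hn0, hempty, measure_empty]
  -- frame along n
  have hnn : 0 < ‖n‖ := norm_pos_iff.mpr hn0
  set u : E := ‖n‖⁻¹ • n with hu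
  have hu1 : ‖u‖ = 1 := by
    rw [hu, norm_smul, norm_inv, norm_norm, inv_mul_cancel₀ hnn.ne']
  have hnu : n = ‖n‖ • u := by
    rw [hu, smul_smul, mul_inv_cancel₀ hnn.ne', one_smul]
  obtain ⟨w, hF⟩ := hframe u hu1
  obtain ⟨r, hr, hball⟩ := Metric.isOpen_iff.mp isOpen_interior p hp
  have hup : ⟪u, p⟫_ℝ < 0 := by
    have h1 : ⟪n, p⟫_ℝ < 0 := by rw [hfn]; exact hfp
    rw [hnu, inner_smul_left] at h1
    simp only [conj_trivial] at h1
    by_contra hcon
    rw [not_lt] at hcon
    have := mul_nonneg hnn.le hcon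
    linarith
  have hLip : LipschitzWith 1 (fun x : E => ⟪w, x⟫_ℝ) := by
    refine LipschitzWith.of_dist_le_mul fun x y => ?_
    rw [NNReal.coe_one, one_mul, Real.dist_eq, ← inner_sub_right, dist_eq_norm]
    calc |⟪w, x - y⟫_ℝ| ≤ ‖w‖ * ‖x - y‖ := abs_real_inner_le_norm _ _
      _ = ‖x - y‖ := by rw [hF.nw, one_mul]
  have hsub : Ioo (⟪w, p⟫_ℝ - r) (⟪w, p⟫_ℝ + r) ⊆
      (fun x : E => ⟪w, x⟫_ℝ) '' (frontier K ∩ {x | ⟪n, x⟫_ℝ < 0}) := by
    intro s hs
    set y : E := p + (s - ⟪w, p⟫_ℝ) • w with hy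
    have hyK : y ∈ interior K := by
      apply hball
      rw [Metric.mem_ball, hy, dist_eq_norm, add_sub_cancel_left, norm_smul, hF.nw, mul_one,
        Real.norm_eq_abs, abs_lt]
      constructor
      · linarith [hs.1]
      · linarith [hs.2]
    have hyw : ⟪w, y⟫_ℝ = s := by
      rw [hy, inner_add_right, inner_smul_right, hF.ww]; ring
    have hyu : ⟪u, y⟫_ℝ = ⟪u, p⟫_ℝ := by
      rw [hy, inner_add_right, inner_smul_right, hF.ortho]; ring
    -- minimise the u-coordinate on the slice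
    have hcomp : IsCompact (K ∩ {z : E | ⟪w, z⟫_ℝ = s}) := by
      refine hKc.inter_right (isClosed_eq (continuous_const.inner continuous_id) continuous_const)
    obtain ⟨z, hz, hzmin⟩ := hcomp.exists_isMinOn ⟨y, interior_subset hyK, hyw⟩
      (f := fun z : E => ⟪u, z⟫_ℝ) (continuous_const.inner continuous_id).continuousOn
    refine ⟨z, ⟨?_, ?_⟩, hz.2⟩
    · rw [frontier, hKc.isClosed.closure_eq]
      refine ⟨hz.1, fun hzi => ?_⟩
      obtain ⟨ρ, hρ, hb⟩ := Metric.isOpen_iff.mp isOpen_interior z hzi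
      have hz' : z - (ρ / 2) • u ∈ interior K := by
        apply hb
        rw [Metric.mem_ball, dist_eq_norm]
        have : z - (ρ / 2) • u - z = -((ρ / 2) • u) := by abel
        rw [this, norm_neg, norm_smul, hu1, mul_one, Real.norm_eq_abs, abs_of_pos (by linarith)]
        linarith
      have h1 : z - (ρ / 2) • u ∈ K ∩ {z : E | ⟪w, z⟫_ℝ = s} := by
        refine ⟨interior_subset hz', ?_⟩
        simp only [mem_ofPred_eq]
        rw [inner_sub_right, inner_smul_right, hF.wu, mul_zero, sub_zero]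
        exact hz.2
      have h2 := hzmin h1
      simp only [mem_ofPred_eq] at h2
      rw [inner_sub_right, inner_smul_right, hF.uu] at h2
      linarith
    · have h2 := hzmin (show y ∈ K ∩ {z : E | ⟪w, z⟫_ℝ = s} from ⟨interior_subset hyK, hyw⟩)
      simp only [mem_ofPred_eq] at h2 ⊢
      rw [hyu] at h2
      rw [hnu, inner_smul_left]
      simp only [conj_trivial]
      exact mul_neg_of_pos_of_neg hnn (lt_of_le_of_lt h2 hup)
  have h1 : volume (Ioo (⟪w, p⟫_ℝ - r) (⟪w, p⟫_ℝ + r)) ≤ 0 := by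
    calc volume (Ioo (⟪w, p⟫_ℝ - r) (⟪w, p⟫_ℝ + r))
        = μH[1] (Ioo (⟪w, p⟫_ℝ - r) (⟪w, p⟫_ℝ + r)) := by rw [hausdorffMeasure_real]
      _ ≤ μH[1] ((fun x : E => ⟪w, x⟫_ℝ) '' (frontier K ∩ {x | ⟪n, x⟫_ℝ < 0})) :=
          measure_mono hsub
      _ ≤ μH[1] (frontier K ∩ {x | ⟪n, x⟫_ℝ < 0}) := by
          have := hLip.hausdorffMeasure_image_le (d := 1) zero_le_one
            (frontier K ∩ {x | ⟪n, x⟫_ℝ < 0})
          simpa using this
      _ = 0 := hz
  rw [Real.volume_Ioo] at h1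
  have h2 : 0 < ENNReal.ofReal (⟪w, p⟫_ℝ + r - (⟪w, p⟫_ℝ - r)) := by
    rw [ENNReal.ofReal_pos]; linarith
  exact absurd h1 (not_le.mpr h2)

/-- The case `O = 0`. -/
theorem symm_origin [ProperSpace E] [CompleteSpace E] {K : Set E} (hK : Convex ℝ K)
    (hKc : IsCompact K) (hKi : (interior K).Nonempty)
    (hframe : ∀ u : E, ‖u‖ = 1 → ∃ w : E, Frame u w)
    (hbis : ∀ n : E, n ≠ 0 → μH[1] (frontier K ∩ {x | 0 < ⟪n, x⟫_ℝ}) =
      μH[1] (frontier K ∩ {x | ⟪n, x⟫_ℝ < 0})) (x : E) : -x ∈ frontier K ↔ x ∈ frontier K := by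
  have h0 := zero_mem_interior hK hKc hKi hframe hbis
  have h0' := mem_interior_iff_mem_nhds.mp h0
  have hfr : frontier K = {x | gauge K x = 1} := by
    ext z
    exact (gauge_eq_one_iff_mem_frontier hK h0').symm
  rw [hfr] at hbis ⊢
  have := symm_of_bisect (gaugeLike_gauge hK hKc h0) hframe hbis x
  simp only [mem_ofPred_eq]
  rw [this]

/-- Orthonormal frames in the Euclidean plane. -/
lemma exists_frame (u : EuclideanSpace ℝ (Fin 2)) (hu : ‖u‖ = 1) :
    ∃ w : EuclideanSpace ℝ (Fin 2), Frame u w := by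
  have hsq : u 0 ^ 2 + u 1 ^ 2 = 1 := by
    have := EuclideanSpace.norm_sq_eq u
    rw [hu, Fin.sum_univ_two] at this
    simp only [Real.norm_eq_abs, sq_abs] at this
    linarith
  refine ⟨!₂[-u 1, u 0], hu, ?_, ?_, ?_⟩
  · have h1 : ‖(!₂[-u 1, u 0] : EuclideanSpace ℝ (Fin 2))‖ ^ 2 = 1 := by
      rw [EuclideanSpace.norm_sq_eq, Fin.sum_univ_two]
      simp
      linarith
    nlinarith [norm_nonneg (!₂[-u 1, u 0] : EuclideanSpace ℝ (Fin 2))]
  · simp [PiLp.inner_apply, Fin.sum_univ_two]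
    ring
  · intro x
    ext i
    fin_cases i
    · simp [PiLp.inner_apply, Fin.sum_univ_two]
      linear_combination (-x 0) * hsq
    · simp [PiLp.inner_apply, Fin.sum_univ_two]
      linear_combination (-x 1) * hsq

end Pool.Agent.Lib.MP_7f2f72_gt
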